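import Pool.Agent.H11.PT3
import Pool.Agent.H11.GDefs

set_option autoImplicit false

namespace Pool.Agent.Results.MP_4c1bf1_lc.InP

open Pool.Agent.H11.PT SimpleGraph Function

/-- `G ≅ K(H)` for a finite graph `H`: `e` is a bijection from the vertices of `G` onto the
maximal cliques of `H`, adjacency being intersection -/
def CG {V : Type} (G : SimpleGraph V) : Prop :=
  ∃ (W : Type) (_ : Finite W) (H : SimpleGraph W) (e : V → Set W), Injective e ∧
    (∀ s, s.Nonempty ∧ Maximal H.IsClique s ↔ ∃ v, e v = s) ∧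
    ∀ u v, G.Adj u v ↔ u ≠ v ∧ (e u ∩ e v).Nonempty

/-- `G` is split with a stable side of at most `k` vertices -/
def Split (k : ℕ) {V : Type} (G : SimpleGraph V) : Prop :=
  ∃ S : Set V, S.ncard ≤ k ∧ G.IsIndepSet S ∧ G.IsClique Sᶜ

section

variable {V V' : Type} [Finite V] [Finite V'] {G : SimpleGraph V} {G' : SimpleGraph V'}

def A (G : SimpleGraph V) (u v : V) : Prop := u = v ∨ G.Adj u v

def Tw (G : SimpleGraph V) (u v : V) : Prop := ∀ x, A G u x ↔ A G v x

theorem blow (π : V' → V) (hπ : Surjective π) (h : ∀ u v, A G' u v ↔ A G (π u) (π v))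
    (c : CG G) : CG G' := by
  obtain ⟨W, _, H, e, h1, h2, h3⟩ := c
  let H' : SimpleGraph (W ⊕ V') := ⟨fun a b => match a, b with
    | .inl a, .inl b => H.Adj a b
    | .inl a, .inr v => a ∈ e (π v)
    | .inr v, .inl a => a ∈ e (π v)
    | .inr _, .inr _ => False,
    ⟨by rintro (a | a) (b | b) h; exacts [h.symm, h, h, h]⟩, ⟨by rintro (a | a) <;> simp⟩⟩
  let e' : V' → Set (W ⊕ V') := fun v => {x | x.elim (· ∈ e (π v)) (· = v)}
  have m : ∀ v, (e v).Nonempty ∧ Maximal H.IsClique (e v) := fun v => (h2 _).2 ⟨v, rfl⟩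
  have c1 : ∀ v, H'.IsClique (e' v) := by
    rintro v (a | a) ha (b | b) hb ne
    · exact (m _).2.1 ha hb fun h => ne (congrArg _ h)
    · cases hb; exact ha
    · cases ha; exact hb
    · cases ha; cases hb; exact (ne rfl).elim
  have c2 : ∀ v s, H'.IsClique s → .inr v ∈ s → s ⊆ e' v := by
    rintro v s hs hv (a | a) ha
    · exact hs ha hv (by simp)
    · by_contra ne
      exact hs ha hv fun h => ne (Sum.inr.inj h)
  refine ⟨_, inferInstance, H', e', fun u v h => ?_, fun s => ⟨fun ⟨n, hs⟩ => ?_, ?_⟩,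
    fun u v => ?_⟩
  · exact (h ▸ (rfl : .inr u ∈ e' u) : .inr u ∈ e' v)
  · by_cases z : ∃ v, .inr v ∈ s
    · obtain ⟨v, z⟩ := z
      exact ⟨v, (hs.eq_of_subset (c1 v) (c2 v s hs.1 z)).symm⟩
    · obtain ⟨t, t1, t2⟩ := Finite.exists_le_maximal (p := H.IsClique) (a := Sum.inl ⁻¹' s)
        fun a ha b hb ne => hs.1 ha hb (Sum.inl_injective.ne ne)
      obtain ⟨a | a, ha⟩ := n
      · obtain ⟨v, rfl⟩ := (h2 t).1 ⟨⟨a, t1 ha⟩, t2⟩
        obtain ⟨v, rfl⟩ := hπ v
        refine ⟨v, (hs.eq_of_subset (c1 v) ?_).symm⟩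
        rintro (b | b) hb
        exacts [t1 hb, (z ⟨_, hb⟩).elim]
      · exact (z ⟨_, ha⟩).elim
  · rintro ⟨v, rfl⟩
    exact ⟨⟨.inr v, rfl⟩, c1 v, fun s hs h => c2 v s hs (h rfl)⟩
  · have := h u v
    have := h3 (π u) (π v)
    have := G'.ne_of_adj (a := u) (b := v)
    have : u ≠ v → ((e' u ∩ e' v).Nonempty ↔ (e (π u) ∩ e (π v)).Nonempty) := fun ne =>
      ⟨by rintro ⟨a | a, p, q⟩; exacts [⟨a, p, q⟩, (ne (p.symm.trans q)).elim],
        fun ⟨a, p⟩ => ⟨.inl a, p⟩⟩
    have : π u = π v → (e (π u) ∩ e (π v)).Nonempty := fun h => by simpa [h] using (m _).1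
    grind [A]

variable {T : Type} {ρ : T → T → Prop}

theorem inj {α β : Type} [Nonempty β] {s : Set α} {t : Set β} (a : s.Finite) (b : t.Finite)
    (h : s.ncard ≤ t.ncard) : ∃ f : α → β, (∀ x ∈ s, f x ∈ t) ∧ Set.InjOn f s :=
  a.exists_injOn_of_encard_le (by rw [← a.cast_ncard_eq, ← b.cast_ncard_eq]; exact_mod_cast h)

noncomputable def cnt (τ : V → T) (t : T) : ℕ := {v | τ v = t}.ncard

theorem up {τ : V → T} {τ' : V' → T} (h : ∀ u v, A G u v ↔ ρ (τ u) (τ v))
    (h' : ∀ u v, A G' u v ↔ ρ (τ' u) (τ' v)) (h1 : ∀ t, cnt τ t ≤ cnt τ' t)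
    (h2 : ∀ t, cnt τ t = 0 → cnt τ' t = 0) (c : CG G) : CG G' := by
  classical
  rcases isEmpty_or_nonempty V' with z | z
  · exact ⟨Empty, inferInstance, ⊥, z.elim, fun u => z.elim u,
      fun s => ⟨fun ⟨⟨a, _⟩, _⟩ => a.elim, fun ⟨v, _⟩ => z.elim v⟩, fun u => z.elim u⟩
  choose f f1 f2 using fun t => inj (Set.toFinite _) (Set.toFinite _) (h1 t)
  have ex : ∀ v', ∃ v, τ v = τ' v' ∧ ∀ u, f (τ u) u = v' → v = u := by
    intro v'
    by_cases z : ∃ u, f (τ u) u = v'
    · obtain ⟨u, rfl⟩ := z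
      have : ∀ u, τ' (f (τ u) u) = τ u := fun u => f1 (τ u) u rfl
      refine ⟨u, (this u).symm, fun w hw => ?_⟩
      have e : τ w = τ u := by rw [← this, hw, this]
      exact f2 (τ u) rfl e (by rw [← hw, e])
    · obtain ⟨v, hv⟩ := Set.nonempty_of_ncard_ne_zero (mt (h2 (τ' v'))
        (Set.ncard_ne_zero_of_mem (a := v') rfl))
      exact ⟨v, hv, fun u hu => (z ⟨u, hu⟩).elim⟩
  choose π p1 p2 using ex
  exact blow π (fun u => ⟨_, p2 _ u rfl⟩) (fun u v => by rw [h, h', p1, p1]) c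

theorem dick [Finite T] (U : Set (T → ℕ)) : ∃ B, 2 ≤ B ∧ ∀ m ∈ U, ∃ m' ∈ U,
    ∀ t, m' t ≤ B ∧ m' t ≤ m t ∧ (m' t = 0 → m t = 0) := by
  by_contra! h
  choose m m1 m2 using fun B => h (B + 2) (by omega)
  obtain ⟨g, hg⟩ := (wellQuasiOrdered_le (α := (T → ℕ) × (T → ℕ))).exists_monotone_subseq
    fun B => (m B, fun t => 1 - m B t)
  obtain ⟨j, hj⟩ := Finite.bddAbove_range (m (g 0))
  obtain ⟨t, ht⟩ := m2 (g j) _ (m1 (g 0))
  have a := hj ⟨t, rfl⟩
  have b := g.strictMono.le_apply (x := j)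
  have c := (hg 0 j (Nat.zero_le _)).1 t
  have d := (hg 0 j (Nat.zero_le _)).2 t
  simp only at c d
  omega

theorem A.symm {u v : V} (h : A G u v) : A G v u := h.imp Eq.symm Adj.symm

abbrev Ty (k : ℕ) := Set (Fin k) × Prop

def rho {k : ℕ} (a b : Ty k) : Prop := a = b ∨ (¬a.2 ∧ ¬b.2) ∨ (a.1 ∩ b.1).Nonempty

theorem typ {k : ℕ} (h : Split k G) : ∃ τ : V → Ty k,
    (∀ u v, A G u v ↔ rho (τ u) (τ v)) ∧ ∀ u v, τ u = τ v ↔ Tw G u v := by
  obtain ⟨S, h1, h2, h3⟩ := h
  obtain ⟨f, f1, f2⟩ := inj (Set.toFinite S) (Set.finite_Iio k) (by simpa)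
  let τ : V → Ty k := fun v => ({i | ∃ s ∈ S, f s = i ∧ A G v s}, v ∈ S)
  have a : ∀ u ∈ S, ∀ v, ((τ u).1 ∩ (τ v).1).Nonempty ↔ A G u v := fun u hu v =>
    ⟨fun ⟨i, ⟨s, p1, p2, p3⟩, s', q1, q2, q3⟩ => by
      obtain rfl : s = s' := f2 p1 q1 (p2.trans q2.symm)
      obtain rfl : u = s := by_contra fun ne => h2 hu p1 ne (p3.resolve_left ne)
      exact q3.symm, fun h => ⟨⟨f u, f1 u hu⟩, ⟨u, hu, rfl, .inl rfl⟩, u, hu, rfl, h.symm⟩⟩
  have b : ∀ u v, A G u v ↔ rho (τ u) (τ v) := by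
    intro u v
    by_cases hu : u ∈ S
    · refine ⟨fun h => .inr (.inr ((a u hu v).2 h)), fun h => (a u hu v).1 ?_⟩
      rcases h with h | h | h
      exacts [h ▸ (a u hu u).2 (.inl rfl), (h.1 hu).elim, h]
    · by_cases hv : v ∈ S
      · refine ⟨fun h => .inr (.inr (Set.inter_comm _ _ ▸ (a v hv u).2 h.symm)),
          fun h => ((a v hv u).1 ?_).symm⟩
        rcases h with h | h | h
        exacts [h ▸ (a v hv v).2 (.inl rfl), (h.2 hv).elim, Set.inter_comm _ _ ▸ h]
      · exact ⟨fun _ => .inr (.inl ⟨hu, hv⟩), fun _ => or_iff_not_imp_left.2 (h3 hu hv)⟩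
  let r : V → V := fun v => @Classical.epsilon V ⟨v⟩ (Tw G v)
  have r1 : ∀ v, Tw G v (r v) := fun v => Classical.epsilon_spec ⟨v, fun _ => Iff.rfl⟩
  refine ⟨τ ∘ r, fun u v => ?_, fun u v => ⟨fun h x => ?_, fun h => ?_⟩⟩
  · exact (r1 u v).trans (⟨fun h => ((r1 v _).1 h.symm).symm,
      fun h => ((r1 v _).2 h.symm).symm⟩ : _ ↔ A G (r u) (r v)) |>.trans (b _ _)
  · rw [r1 u, r1 v, b, b]
    exact Iff.of_eq (congrArg (rho · _) h)
  · have : Tw G u = Tw G v := funext fun y => propext (forall_congr' fun x => by rw [h x])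
    simp only [comp, r, this]

theorem main (k : ℕ) : ∃ B, ∀ {V V' : Type} [Finite V] [Finite V'] (G : SimpleGraph V)
    (G' : SimpleGraph V') (ι : V' → V), Injective ι → (∀ u v, A G' u v ↔ A G (ι u) (ι v)) →
    (∀ v, {w | Tw G v (ι w)}.ncard = min {u | Tw G v u}.ncard B) →
    (Split k G ∧ CG G ↔ Split k G' ∧ CG G') ∧
      (Split k G → Nat.card V' ≤ B * Nat.card (Ty k)) := by
  classical
  obtain ⟨B, b2, hB⟩ := dick {m : Ty k → ℕ | ∃ (V : Type) (_ : Finite V) (G : SimpleGraph V)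
    (τ : V → Ty k), (∀ u v, A G u v ↔ rho (τ u) (τ v)) ∧ CG G ∧ cnt τ = m}
  refine ⟨B, fun {V V'} _ _ G G' ι hi ha hc => ?_⟩
  have ad : ∀ u v, G'.Adj u v ↔ G.Adj (ι u) (ι v) := fun u v => by
    have := ha u v
    have := hi.eq_iff (a := u) (b := v)
    have := G'.ne_of_adj (a := u) (b := v)
    have := G.ne_of_adj (a := ι u) (b := ι v)
    grind [A]
  have s : Split k G ↔ Split k G' := by
    constructor
    · rintro ⟨S, h1, h2, h3⟩
      exact ⟨ι ⁻¹' S, (Set.ncard_le_ncard_of_injOn ι (fun _ h => h) hi.injOn).trans h1,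
        fun u hu v hv ne => mt (ad u v).1 (h2 hu hv (hi.ne ne)), fun u hu v hv ne =>
          (ad u v).2 (h3 hu hv (hi.ne ne))⟩
    · rintro ⟨S, h1, h2, h3⟩
      have ex : ∀ u ∉ ι '' S, ∃ w ∉ S, Tw G u (ι w) := by
        intro u hu
        have := hc u
        rcases le_total {x | Tw G u x}.ncard B with l | l
        · rw [min_eq_left l, ← Set.ncard_image_of_injective _ hi] at this
          obtain ⟨w, h, rfl⟩ : u ∈ ι '' {w | Tw G u (ι w)} := by
            rw [Set.eq_of_subset_of_ncard_le (by rintro _ ⟨w, h, rfl⟩; exact h) this.ge]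
            exact fun _ => Iff.rfl
          exact ⟨w, fun h => hu ⟨w, h, rfl⟩, h⟩
        · obtain ⟨a, b, p, q, ne⟩ := (Set.one_lt_ncard_iff (s := {w | Tw G u (ι w)})).1 (by omega)
          by_contra! z
          exact h2 (by_contra fun h => z a h p) (by_contra fun h => z b h q) ne
            (((ha a b).2 ((p _).1 ((q _).2 (.inl rfl)))).resolve_left ne)
      refine ⟨ι '' S, (Set.ncard_image_le).trans h1, ?_, fun u hu v hv ne => ?_⟩
      · rintro _ ⟨u, hu, rfl⟩ _ ⟨v, hv, rfl⟩ ne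
        exact mt (ad u v).2 (h2 hu hv fun h => ne (congrArg ι h))
      · obtain ⟨a, p, p'⟩ := ex u hu
        obtain ⟨b, q, q'⟩ := ex v hv
        exact ((q' u).2 ((p' _).2 ((ha a b).1 (or_iff_not_imp_left.2 (h3 p q)))).symm).symm.resolve_left ne
  rw [← s, and_congr_right_iff, ← imp_and]
  intro h
  obtain ⟨τ, t1, t2⟩ := typ h
  have t3 : ∀ u v, A G' u v ↔ rho ((τ ∘ ι) u) ((τ ∘ ι) v) := fun u v => (ha u v).trans (t1 _ _)
  have c : ∀ t, cnt (τ ∘ ι) t = min (cnt τ t) B := by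
    intro t
    by_cases z : ∃ v, τ v = t
    · obtain ⟨v, rfl⟩ := z
      simpa only [cnt, comp, eq_comm (b := τ v), t2] using hc v
    · simp [cnt, not_exists.1 z]
  refine ⟨⟨fun g => ?_, up t3 t1 (fun t => by rw [c]; omega) fun t => by rw [c]; omega⟩, ?_⟩
  · obtain ⟨_, ⟨V0, _, G0, τ0, p, q, rfl⟩, r⟩ := hB _ ⟨V, inferInstance, G, τ, t1, g, rfl⟩
    exact up p t3 (fun t => by have := r t; rw [c]; omega) (fun t => by have := r t; rw [c]; omega) q
  · have := Fintype.ofFinite V'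
    have := Fintype.ofFinite (Ty k)
    simp only [Nat.card_eq_fintype_card]
    refine Finset.card_le_mul_card_image_of_maps_to (f := τ ∘ ι) (fun _ _ => Finset.mem_univ _) B
      fun t _ => le_trans (le_of_eq ?_) ((c t).trans_le (min_le_right _ _))
    rw [cnt, ← Set.ncard_coe_finset]
    simp

end

abbrev Gr := ℕ × List (ℕ × ℕ)

def adB (y : Gr) (u v : ℕ) : Bool := decide (u = v ∨ (u, v) ∈ y.2 ∨ (v, u) ∈ y.2)

def cls (y : Gr) (v : ℕ) : List ℕ :=
  (List.range y.1).filter fun u => (List.range y.1).all fun x => adB y v x == adB y u x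

def vs (B : ℕ) (y : Gr) : List ℕ := (List.range y.1).filter fun v => decide (v ∈ (cls y v).take B)

def code (B : ℕ) (y : Gr) : Gr :=
  ((vs B y).length, (List.range (vs B y).length ×ˢ List.range (vs B y).length).filter fun p =>
    adB y ((vs B y).getD p.1 0) ((vs B y).getD p.2 0))

theorem result (k : ℕ) :
    InP fun y : ℕ × List (ℕ × ℕ) => Split k (gr y.1 y.2) ∧ CG (gr y.1 y.2) := by
  obtain ⟨B, hB⟩ := main k
  have key : ∀ y : Gr, (Split k (gr y.1 y.2) ∧ CG (gr y.1 y.2) ↔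
      Split k (gr (code B y).1 (code B y).2) ∧ CG (gr (code B y).1 (code B y).2)) ∧
      (Split k (gr y.1 y.2) → (vs B y).length ≤ B * Nat.card (Ty k)) := by
    intro y
    have lt : ∀ v ∈ vs B y, v < y.1 := fun v h => List.mem_range.1 (List.mem_of_mem_filter h)
    have nd : (vs B y).Nodup := List.nodup_range.filter _
    have a : ∀ u v : Fin y.1, A (gr y.1 y.2) u v ↔ adB y u v = true := fun u v => by
      simp [A, gr, adB, Fin.ext_iff]; grind
    have tw : ∀ u v : Fin y.1, Tw (gr y.1 y.2) u v ↔ v.1 ∈ cls y u := fun u v => by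
      simp [Tw, a, cls, Fin.forall_iff]
    have ce : ∀ u v, v ∈ cls y u → cls y v = cls y u := fun u v h =>
      List.filter_congr fun z _ => by
        simp only [cls, List.mem_filter, List.all_eq_true, beq_iff_eq] at h
        rw [Bool.eq_iff_iff]
        simp only [List.all_eq_true]
        exact forall₂_congr fun x hx => by rw [h.2 x hx]
    let ι : Fin (vs B y).length → Fin y.1 := fun i => ⟨(vs B y)[i], lt _ (List.getElem_mem _)⟩
    have hi : Injective ι := fun i j h =>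
      Fin.ext (nd.getElem_inj_iff.1 (congrArg Fin.val h))
    have := hB (gr y.1 y.2) (gr (vs B y).length (code B y).2) ι hi (fun u v => ?_) fun v => ?_
    · rwa [Nat.card_fin] at this
    · rw [a]
      simp [A, gr, code, ι, adB, Fin.ext_iff, nd.getElem_inj_iff]
      grind
    · have n1 : (cls y v).Nodup := List.nodup_range.filter _
      have l1 : ∀ u ∈ cls y v, u < y.1 := fun v h => List.mem_range.1 (List.mem_of_mem_filter h)
      rw [← Set.ncard_image_of_injective _ (Fin.val_injective.comp hi),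
        ← Set.ncard_image_of_injective _ Fin.val_injective,
        show (Fin.val ∘ ι) '' _ = ((cls y v).take B).toFinset from Set.ext fun u => ?_,
        show Fin.val '' _ = (cls y v).toFinset from Set.ext fun u => ?_, Set.ncard_coe_finset,
        Set.ncard_coe_finset, List.toFinset_card_of_nodup n1,
        List.toFinset_card_of_nodup (n1.sublist (List.take_sublist _ _)), List.length_take, min_comm]
      · simp only [tw, Set.mem_image, Set.mem_setOf_eq, Finset.mem_coe, List.mem_toFinset]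
        exact ⟨fun ⟨x, p, q⟩ => q ▸ p, fun h => ⟨⟨u, l1 u h⟩, h, rfl⟩⟩
      · simp only [tw, Set.mem_image, Set.mem_setOf_eq, Finset.mem_coe, List.mem_toFinset]
        refine ⟨fun ⟨x, p, q⟩ => ?_, fun h => ?_⟩
        · subst q
          rw [← ce _ _ p]
          exact of_decide_eq_true (List.mem_filter.1 (List.getElem_mem x.2)).2
        · have m := List.mem_of_mem_take h
          obtain ⟨i, hi, e⟩ := List.getElem_of_mem (show u ∈ vs B y by
            simp [vs, l1 u m, ce _ _ m, h])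
          exact ⟨⟨i, hi⟩, by simpa [ι, e] using m, e⟩
  have fin : (code B '' {y : Gr | Split k (gr y.1 y.2) ∧ CG (gr y.1 y.2)}).Finite := by
    refine ((Set.finite_Iic (B * Nat.card (Ty k))).biUnion fun c _ => (Set.finite_singleton c).prod
      (List.finite_toSet (List.range c ×ˢ List.range c).sublists)).subset ?_
    rintro _ ⟨y, h, rfl⟩
    simp only [Set.mem_iUnion]
    exact ⟨_, (key y).2 h.1, rfl, List.mem_sublists.2 List.filter_sublist⟩
  refine PT.inP (V := fun y => decide (code B y ∈ fin.toFinset.toList))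
    (PT.decMem (PT.const _) (by unfold code vs cls adB; fun_prop)) fun y => ?_
  simp only [decide_eq_true_eq, Finset.mem_toList, Set.Finite.mem_toFinset]
  exact ⟨fun h => ⟨y, h, rfl⟩, fun ⟨z, h, e⟩ => (key y).1.2 (e ▸ (key z).1.1 h)⟩

end Pool.Agent.Results.MP_4c1bf1_lc.InP
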